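import Pool.Agent.R990.MGS.Defs

namespace Pool.Agent.R990.MGS

variable {V : Type} [DecidableEq V]

lemma b_self (A : Quiv V) (k : V) : A.b k k = 0 := by
  have := A.skew k k; omega

lemma ne_of_pos {A : Quiv V} {i j : V} (h : 0 < A.b i j) : i ≠ j := by
  rintro rfl; rw [b_self] at h; omega

lemma mut_left (A : Quiv V) (k j : V) : (A.mut k).b k j = - A.b k j := by simp [Quiv.mut]
lemma mut_right (A : Quiv V) (k i : V) : (A.mut k).b i k = - A.b i k := by simp [Quiv.mut]

lemma mut_pp (A : Quiv V) {k i j : V} (hi : 0 < A.b k i) (hj : 0 < A.b k j) :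
    (A.mut k).b i j = A.b i j := by
  have h1 : i ≠ k := (ne_of_pos hi).symm
  have h2 : j ≠ k := (ne_of_pos hj).symm
  have h3 := A.skew k i
  have h4 := A.skew k j
  simp only [Quiv.mut, h1, h2, or_self, if_false]
  rw [max_eq_right (by omega : A.b i k ≤ 0), max_eq_right (by omega : A.b j k ≤ 0)]
  ring

lemma mut_ss (A : Quiv V) {k i j : V} (hi : 0 < A.b i k) (hj : 0 < A.b j k) :
    (A.mut k).b i j = A.b i j := by
  have h1 : i ≠ k := (ne_of_pos hi)
  have h2 : j ≠ k := (ne_of_pos hj)
  have h3 := A.skew i k
  have h4 := A.skew j k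
  simp only [Quiv.mut, h1, h2, or_self, if_false]
  rw [max_eq_right (by omega : A.b k i ≤ 0), max_eq_right (by omega : A.b k j ≤ 0)]
  ring

lemma mut_sp (A : Quiv V) {k i j : V} (hi : 0 < A.b i k) (hj : 0 < A.b k j) :
    (A.mut k).b i j = A.b i j + A.b i k * A.b k j := by
  have h1 : i ≠ k := (ne_of_pos hi)
  have h2 : j ≠ k := (ne_of_pos hj).symm
  have h3 := A.skew i k
  have h4 := A.skew k j
  simp only [Quiv.mut, h1, h2, or_self, if_false]
  rw [max_eq_left (by omega : 0 ≤ A.b i k), max_eq_left (by omega : 0 ≤ A.b k j),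
    max_eq_right (by omega : A.b k i ≤ 0), max_eq_right (by omega : A.b j k ≤ 0)]
  ring

lemma mut_mut (A : Quiv V) (k : V) : (A.mut k).mut k = A := by
  ext i j
  by_cases hi : i = k
  · subst hi; rw [mut_left, mut_left, neg_neg]
  by_cases hj : j = k
  · subst hj; rw [mut_right, mut_right, neg_neg]
  have e : ((A.mut k).mut k).b i j = (A.mut k).b i j + max ((A.mut k).b i k) 0 *
      max ((A.mut k).b k j) 0 - max ((A.mut k).b j k) 0 * max ((A.mut k).b k i) 0 := by
    conv_lhs => rw [Quiv.mut]
    simp [hi, hj]
  have e2 : (A.mut k).b i j = A.b i j + max (A.b i k) 0 * max (A.b k j) 0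
      - max (A.b j k) 0 * max (A.b k i) 0 := by
    simp [Quiv.mut, hi, hj]
  rw [e, e2, mut_right, mut_left, mut_right, mut_left, ← A.skew i k, ← A.skew k j, ← A.skew j k,
    ← A.skew k i]
  ring

/-- At least two arrows between any two vertices. -/
def Abund (A : Quiv V) : Prop := ∀ i j, i ≠ j → 2 ≤ A.b i j ∨ 2 ≤ A.b j i

/-- The `c`-vector of `k` is nonnegative. -/
def Green (C : V → V → ℤ) (k : V) : Prop := ∀ i, 0 ≤ C k i

/-- Change of the `c`-vectors under the mutation at a green vertex `k`. -/
def cmut (A : Quiv V) (C : V → V → ℤ) (k : V) : V → V → ℤ := fun l i =>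
  if l = k then - C k i else C l i + max (A.b l k) 0 * C k i

lemma cmut_self (A : Quiv V) (C : V → V → ℤ) (k i : V) : cmut A C k k i = - C k i := by
  simp [cmut]

lemma cmut_s (A : Quiv V) (C : V → V → ℤ) {k l : V} (h : 0 < A.b l k) (i : V) :
    cmut A C k l i = C l i + A.b l k * C k i := by
  simp only [cmut, if_neg (ne_of_pos h)]
  rw [max_eq_left (by omega)]

lemma cmut_p (A : Quiv V) (C : V → V → ℤ) {k l : V} (h : 0 < A.b k l) (i : V) :
    cmut A C k l i = C l i := by
  have := A.skew k l
  simp only [cmut, if_neg (ne_of_pos h).symm]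
  rw [max_eq_right (by omega)]; ring

/-- The invariant of the `c`-vectors. -/
structure Inv (A : Quiv V) (C : V → V → ℤ) : Prop where
  N : ∀ k, ∃ i, C k i ≠ 0
  J : ∀ m l, 0 < A.b m l → ¬ Green C m → Green C l → ∀ i, 0 ≤ C m i + C l i
  K : ∀ m l t, ¬ Green C m → ¬ Green C l → Green C t → 0 < A.b m l → 0 < A.b l t → 0 < A.b t m →
    A.b l t < A.b m l → A.b t m < A.b m l → ∀ i, 0 ≤ C m i + C t i

/-- A condition on the 4-vertex subquivers. -/
def Cond (A : Quiv V) : Prop := ∀ m l t v, 0 < A.b v m → 0 < A.b v l → 0 < A.b m l →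
  0 < A.b l t → 0 < A.b t v → A.b t v * A.b v l < A.b l t → A.b t v < A.b m t ∧ A.b v m < A.b m t

lemma pred_le {A : Quiv V} {C : V → V → ℤ} (hA : Abund A) (h : Inv A C) {k l : V}
    (hk : Green C k) (hl : 0 < A.b l k) (i : V) : C k i ≤ cmut A C k l i := by
  have h2 : 2 ≤ A.b l k := by
    have := A.skew l k
    rcases hA l k (ne_of_pos hl) with h | h <;> omega
  rw [cmut_s A C hl]
  have h3 := hk i
  by_cases hg : Green C l
  · have := hg i
    nlinarith
  · have := h.J l k hl hg hk i
    nlinarith

lemma pred_green {A : Quiv V} {C : V → V → ℤ} (hA : Abund A) (h : Inv A C) {k l : V}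
    (hk : Green C k) (hl : 0 < A.b l k) : Green (cmut A C k) l :=
  fun i => (hk i).trans (pred_le hA h hk hl i)

lemma self_not_green {A : Quiv V} {C : V → V → ℤ} (h : Inv A C) {k : V} (hk : Green C k) :
    ¬ Green (cmut A C k) k := by
  intro hg
  obtain ⟨i, hi⟩ := h.N k
  have h1 := hk i
  have h2 := hg i
  rw [cmut_self] at h2
  omega

lemma succ_of_not_green {A : Quiv V} {C : V → V → ℤ} (hA : Abund A) (h : Inv A C) {k m : V}
    (hk : Green C k) (hm : ¬ Green (cmut A C k) m) (hne : m ≠ k) : 2 ≤ A.b k m := by
  rcases hA m k hne with h1 | h1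
  · exact absurd (pred_green hA h hk (by omega)) hm
  · exact h1

lemma green_congr {C C' : V → V → ℤ} {k : V} (h : ∀ i, C' k i = C k i) : Green C' k ↔ Green C k := by
  constructor
  · intro g i; rw [← h]; exact g i
  · intro g i; rw [h]; exact g i

lemma step_inv {A : Quiv V} {C : V → V → ℤ} (hA : Abund A) (hc : Cond A) (h : Inv A C) {k : V}
    (hk : Green C k) : Inv (A.mut k) (cmut A C k) := by
  refine ⟨?_, ?_, ?_⟩
  · intro l
    by_cases hl : l = k
    · subst hl
      obtain ⟨i, hi⟩ := h.N l
      exact ⟨i, by rw [cmut_self]; omega⟩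
    · rcases hA l k hl with h1 | h1
      · obtain ⟨i, hi⟩ := h.N k
        refine ⟨i, ?_⟩
        have h2 := pred_le hA h hk (by omega : 0 < A.b l k) i
        have h3 := hk i
        omega
      · obtain ⟨i, hi⟩ := h.N l
        exact ⟨i, by rw [cmut_p A C (by omega)]; exact hi⟩
  · intro m l hml hm hl i
    by_cases hmk : m = k
    · subst hmk
      rw [mut_left] at hml
      have h1 := A.skew m l
      have h2 := pred_le hA h hk (by omega : 0 < A.b l m) i
      rw [cmut_self]; omega
    · have hkm := succ_of_not_green hA h hk hm hmk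
      have em : ∀ i, cmut A C k m i = C m i := fun i => cmut_p A C (by omega) i
      have hm' : ¬ Green C m := fun g => hm ((green_congr em).2 g)
      by_cases hlk : l = k
      · subst hlk; exact absurd hl (self_not_green h hk)
      rw [em]
      rcases hA l k hlk with h1 | h1
      · -- l → k → m
        have e1 := mut_sp A (by omega : 0 < A.b l k) (by omega : 0 < A.b k m)
        have e2 := (A.mut k).skew l m
        have e3 := A.skew l m
        have hgt : A.b l k * A.b k m < A.b m l := by omega
        rw [cmut_s A C (by omega)]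
        have hki := hk i
        by_cases hg : Green C l
        · have := h.J m l (by nlinarith) hm' hg i
          nlinarith
        · have hj := h.J l k (by omega) hg hk i
          have hk' := h.K m l k hm' hg hk (by nlinarith) (by omega) (by omega) (by nlinarith)
            (by nlinarith) i
          nlinarith
      · have e1 := mut_pp A (by omega : 0 < A.b k m) (by omega : 0 < A.b k l)
        rw [e1] at hml
        have el : ∀ i, cmut A C k l i = C l i := fun i => cmut_p A C (by omega) i
        rw [el]
        exact h.J m l hml hm' ((green_congr el).1 hl) i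
  · intro m l t hm hl ht hml hlt htm h5 h6 i
    by_cases hmk : m = k
    · subst hmk
      rw [mut_left] at hml
      have h1 := A.skew m l
      exact absurd (pred_green hA h hk (by omega : 0 < A.b l m)) hl
    by_cases htk : t = k
    · subst htk; exact absurd ht (self_not_green h hk)
    have hkm := succ_of_not_green hA h hk hm hmk
    have em : ∀ i, cmut A C k m i = C m i := fun i => cmut_p A C (by omega) i
    have hm' : ¬ Green C m := fun g => hm ((green_congr em).2 g)
    rw [em]
    have hki := hk i
    by_cases hlk : l = k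
    · subst hlk
      rw [mut_right] at hml h5 h6
      rw [mut_left] at hlt h5
      have s1 := A.skew m l
      have s2 := A.skew t l
      have s3 := A.skew t m
      have htl : 0 < A.b t l := by omega
      have htl2 : 2 ≤ A.b t l := by
        rcases hA t l htk with h | h <;> omega
      have e1 := mut_sp A htl (by omega : 0 < A.b l m)
      rw [cmut_s A C htl]
      rcases hA t m (by rintro rfl; omega) with h1 | h1
      · exfalso; nlinarith
      · by_cases hg : Green C t
        · have := h.J m t (by omega) hm' hg i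
          nlinarith
        · have hj := h.J t l (by omega) hg hk i
          have hk' := h.K m t l hm' hg hk (by omega) (by omega) (by omega) (by nlinarith)
            (by nlinarith) i
          nlinarith
    · have hkl := succ_of_not_green hA h hk hl hlk
      have el : ∀ i, cmut A C k l i = C l i := fun i => cmut_p A C (by omega) i
      have hl' : ¬ Green C l := fun g => hl ((green_congr el).2 g)
      have e0 := mut_pp A (by omega : 0 < A.b k m) (by omega : 0 < A.b k l)
      rw [e0] at hml h5 h6
      rcases hA t k htk with h1 | h1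
      · -- t → k
        have e1 := mut_sp A (by omega : 0 < A.b t k) (by omega : 0 < A.b k l)
        have e2 := mut_sp A (by omega : 0 < A.b t k) (by omega : 0 < A.b k m)
        have s1 := A.skew t l
        have s2 := (A.mut k).skew t l
        have s3 := A.skew t m
        have hgt : A.b t k * A.b k l < A.b l t := by omega
        have hcc := hc m l t k (by omega) (by omega) hml (by nlinarith) (by omega) hgt
        rw [cmut_s A C (by omega)]
        by_cases hg : Green C t
        · have := h.J m t (by omega) hm' hg i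
          nlinarith
        · have hj := h.J t k (by omega) hg hk i
          have hk' := h.K m t k hm' hg hk (by omega) (by omega) (by omega) (by omega)
            (by omega) i
          nlinarith
      · have e1 := mut_pp A (by omega : 0 < A.b k l) (by omega : 0 < A.b k t)
        have e2 := mut_pp A (by omega : 0 < A.b k t) (by omega : 0 < A.b k m)
        rw [e1] at hlt h5
        rw [e2] at htm h6
        have et : ∀ i, cmut A C k t i = C t i := fun i => cmut_p A C (by omega) i
        rw [et]
        exact h.K m l t hm' hl' ((green_congr et).1 ht) hml hlt htm h5 h6 i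

/-- The state `(A, C)` represents the (mutated) framed quiver `G`. -/
def Rep (G : Quiv (V ⊕ V)) (A : Quiv V) (C : V → V → ℤ) : Prop :=
  (∀ i j, G.b (.inl i) (.inl j) = A.b i j) ∧ ∀ k i, G.b (.inl k) (.inr i) = C k i

lemma Rep.green {G : Quiv (V ⊕ V)} {A : Quiv V} {C : V → V → ℤ} (h : Rep G A C) (k : V) :
    IsGreen G k ↔ Green C k := by
  constructor
  · intro g i
    have h1 := g i
    rw [G.skew (.inl k) (.inr i), h.2] at h1
    omega
  · intro g i
    rw [G.skew (.inl k) (.inr i), h.2]
    have := g i
    omega

lemma Rep.step {G : Quiv (V ⊕ V)} {A : Quiv V} {C : V → V → ℤ} (h : Rep G A C) {k : V}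
    (hk : Green C k) : Rep (fmut G k) (A.mut k) (cmut A C k) := by
  constructor
  · intro i j
    show (G.mut (.inl k)).b (.inl i) (.inl j) = _
    simp only [Quiv.mut, Sum.inl.injEq, h.1]
  · intro l i
    show (G.mut (.inl k)).b (.inl l) (.inr i) = _
    have e : G.b (.inr i) (.inl k) = - C k i := by rw [G.skew (.inl k) (.inr i), h.2]
    simp only [Quiv.mut, Sum.inl.injEq, reduceCtorEq, or_false, h.1, h.2, e, cmut]
    by_cases hl : l = k
    · subst hl; simp
    · simp only [hl, if_false]
      have := hk i
      rw [max_eq_left this, max_eq_right (by omega : - C k i ≤ 0)]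
      ring

lemma Rep.framed (A : Quiv V) : Rep (framed A) A (fun k i => if k = i then 1 else 0) :=
  ⟨fun _ _ => rfl, fun _ _ => rfl⟩

lemma no_mgs_aux (St : Quiv V → (V → V → ℤ) → Prop)
    (h1 : ∀ A C, St A C → ∃ k, Green C k)
    (h2 : ∀ A C k, St A C → Green C k → St (A.mut k) (cmut A C k)) (l : List V) :
    ∀ (G : Quiv (V ⊕ V)) (A : Quiv V) (C : V → V → ℤ), Rep G A C → St A C → ¬ IsMGS G l := by
  induction l with
  | nil =>
    intro G A C hr hs hG
    obtain ⟨k, hk⟩ := h1 A C hs
    exact hG k ((hr.green k).2 hk)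
  | cons k l ih =>
    intro G A C hr hs hG
    have hk := (hr.green k).1 hG.1
    exact ih _ _ _ (hr.step hk) (h2 A C k hs hk) hG.2

lemma no_mgs (St : Quiv V → (V → V → ℤ) → Prop)
    (h1 : ∀ A C, St A C → ∃ k, Green C k)
    (h2 : ∀ A C k, St A C → Green C k → St (A.mut k) (cmut A C k)) {A : Quiv V}
    (hA : St A (fun k i => if k = i then 1 else 0)) : ¬ HasMGS A := by
  rintro ⟨l, hl⟩
  exact no_mgs_aux St h1 h2 l _ _ _ (Rep.framed A) hA hl

lemma green_init (k : V) : Green (fun k i : V => if k = i then (1 : ℤ) else 0) k := by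
  intro i
  by_cases h : k = i <;> simp [h]

lemma inv_init (A : Quiv V) : Inv A (fun k i => if k = i then 1 else 0) :=
  ⟨fun k => ⟨k, by simp⟩, fun m _ _ hm => absurd (green_init m) hm,
    fun m _ _ hm => absurd (green_init m) hm⟩

end Pool.Agent.R990.MGS
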