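import Mathlib

/-!
# Quivers, mutation, maximal green sequences
-/

namespace Pool.Agent.R990.MGS

/-- A quiver with vertex set `V` (no loops, no oriented 2-cycles, multiple arrows allowed), given by
its exchange matrix: there are `b i j` arrows `i → j` if `b i j > 0`. -/
@[ext] structure Quiv (V : Type) where
  b : V → V → ℤ
  skew : ∀ i j, b j i = - b i j

variable {V W : Type}

/-- Mutation at `k`: for each path `i → k → j` add an arrow `i → j`, reverse the arrows at `k`,
cancel oriented 2-cycles. -/
def Quiv.mut [DecidableEq V] (A : Quiv V) (k : V) : Quiv V where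
  b i j := if i = k ∨ j = k then - A.b i j
    else A.b i j + max (A.b i k) 0 * max (A.b k j) 0 - max (A.b j k) 0 * max (A.b k i) 0
  skew := by
    intro i j
    by_cases h : i = k ∨ j = k
    · have h' : j = k ∨ i = k := h.symm
      simp only [if_pos h, if_pos h', A.skew i j]
    · have h' : ¬ (j = k ∨ i = k) := fun e => h e.symm
      simp only [if_neg h, if_neg h', A.skew i j]
      ring

/-- The framed quiver: mutable vertices `inl i`, frozen vertices `inr i = i'`, one arrow `i → i'`
for each `i`. -/
def framed [DecidableEq V] (A : Quiv V) : Quiv (V ⊕ V) where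
  b x y := match x, y with
    | .inl i, .inl j => A.b i j
    | .inl i, .inr j => if i = j then 1 else 0
    | .inr i, .inl j => if j = i then -1 else 0
    | .inr _, .inr _ => 0
  skew := by
    rintro (i | i) (j | j)
    · exact A.skew i j
    · by_cases h : i = j <;> simp [h]
    · by_cases h : j = i <;> simp [h]
    · rfl

/-- Discard the arrows between frozen vertices. -/
def discard (G : Quiv (V ⊕ V)) : Quiv (V ⊕ V) where
  b x y := match x, y with
    | .inr _, .inr _ => 0
    | .inl i, .inl j => G.b (.inl i) (.inl j)
    | .inl i, .inr j => G.b (.inl i) (.inr j)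
    | .inr i, .inl j => G.b (.inr i) (.inl j)
  skew := by
    rintro (i | i) (j | j)
    · exact G.skew _ _
    · exact G.skew _ _
    · exact G.skew _ _
    · rfl

/-- Mutation of a framed quiver at the non-frozen vertex `k`. -/
def fmut [DecidableEq V] (G : Quiv (V ⊕ V)) (k : V) : Quiv (V ⊕ V) := discard (G.mut (.inl k))

/-- A non-frozen vertex `j` is green if no arrow goes from a frozen vertex to `j`. -/
def IsGreen (G : Quiv (V ⊕ V)) (j : V) : Prop := ∀ i : V, ¬ 0 < G.b (.inr i) (.inl j)

/-- The sequence `l` of non-frozen vertices can be mutated starting from `G`, each vertex being green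
when it is mutated, and all non-frozen vertices are red at the end. -/
def IsMGS [DecidableEq V] : Quiv (V ⊕ V) → List V → Prop
  | G, [] => ∀ j, ¬ IsGreen G j
  | G, k :: l => IsGreen G k ∧ IsMGS (fmut G k) l

/-- `A` has a maximal green sequence. -/
def HasMGS [DecidableEq V] (A : Quiv V) : Prop := ∃ l : List V, IsMGS (framed A) l

/-- `B` is obtained from `A` by finitely many mutations, `B ∈ Mut(A)`. -/
def MutEq [DecidableEq V] (A B : Quiv V) : Prop :=
  Relation.ReflTransGen (fun X Y : Quiv V => ∃ k, Y = X.mut k) A B

/-- Isomorphism (relabelling of the vertices). -/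
def Iso (A B : Quiv V) : Prop := ∃ σ : V ≃ V, ∀ i j, B.b (σ i) (σ j) = A.b i j

/-- Quivers on `V` up to relabelling. -/
instance isoSetoid (V : Type) : Setoid (Quiv V) where
  r := Iso
  iseqv :=
    { refl := fun A => ⟨Equiv.refl V, fun _ _ => rfl⟩
      symm := by
        rintro A B ⟨σ, h⟩
        refine ⟨σ.symm, fun i j => ?_⟩
        have := h (σ.symm i) (σ.symm j)
        simpa using this.symm
      trans := by
        rintro A B C ⟨σ, h⟩ ⟨τ, h'⟩
        exact ⟨σ.trans τ, fun i j => by simp [h', h]⟩ }

/-- The vertex set of `Ψ(Q)`: the isomorphism classes of the quivers in `Mut(Q)` that have a maximal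
green sequence. -/
def Psi [DecidableEq V] (Q : Quiv V) : Set (Quotient (isoSetoid V)) :=
  {x | ∃ A : Quiv V, MutEq Q A ∧ HasMGS A ∧ (⟦A⟧ : Quotient (isoSetoid V)) = x}

/-- The direct sum of `Q` and `Q'` along the list `L` of pairs `(a₁, b₁), …, (a_k, b_k)`: the arrows
of `Q` and of `Q'` and one arrow `a_i → b_i` for each `i`. -/
def dsum [DecidableEq V] [DecidableEq W] (Q : Quiv V) (Q' : Quiv W) (L : List (V × W)) :
    Quiv (V ⊕ W) where
  b x y := match x, y with
    | .inl i, .inl j => Q.b i j
    | .inr i, .inr j => Q'.b i j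
    | .inl i, .inr j => (L.count (i, j) : ℤ)
    | .inr i, .inl j => -(L.count (j, i) : ℤ)
  skew := by
    rintro (i | i) (j | j)
    · exact Q.skew _ _
    · rfl
    · simp
    · exact Q'.skew _ _

end Pool.Agent.R990.MGS
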