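import Pool.Agent.R990.MGS.Core

namespace Pool.Agent.R990.MGS

variable {V : Type} [DecidableEq V]

/-- Forks (with point of return `r`), in a form that suffices here. -/
structure Fork (A : Quiv V) (r : V) : Prop where
  ab : Abund A
  big : ∀ i j, 0 < A.b i r → 0 < A.b r j → A.b i r < A.b j i ∧ A.b r j < A.b j i
  cyc : ∀ x y z, 0 < A.b x y → 0 < A.b y z → 0 < A.b z x → x = r ∨ y = r ∨ z = r
  hp : ∃ i, 0 < A.b i r
  hs : ∃ j, 0 < A.b r j

lemma Fork.c1 {A : Quiv V} {r k : V} (h : Fork A r) (hk : k ≠ r) {a c : V} (ha : 0 < A.b a k)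
    (hc : 0 < A.b k c) : A.b a k < (A.mut k).b a c ∧ A.b k c < (A.mut k).b a c := by
  have ha2 : 2 ≤ A.b a k := by
    have := A.skew a k
    rcases h.ab a k (ne_of_pos ha) with h | h <;> omega
  have hc2 : 2 ≤ A.b k c := by
    have := A.skew k c
    rcases h.ab k c (ne_of_pos hc) with h | h <;> omega
  have hne : a ≠ c := by
    rintro rfl
    have := A.skew a k
    omega
  rw [mut_sp A ha hc]
  have s := A.skew a c
  rcases h.ab a c hne with h1 | h1
  · constructor <;> nlinarith
  · rcases h.cyc a k c ha hc (by omega) with e | e | e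
    · subst e
      obtain ⟨h2, h3⟩ := h.big c k (by omega) ha
      constructor <;> nlinarith
    · exact absurd e hk
    · subst e
      obtain ⟨h2, h3⟩ := h.big k a hc (by omega)
      constructor <;> nlinarith

lemma Fork.no_source {A : Quiv V} {r : V} (h : Fork A r) (k : V) : ∃ l, 0 < A.b l k := by
  by_cases hk : k = r
  · subst hk; exact h.hp
  · rcases h.ab k r hk with h1 | h1
    · obtain ⟨j, hj⟩ := h.hs
      have := (h.big k j (by omega) hj).1
      exact ⟨j, by omega⟩
    · exact ⟨r, by omega⟩

lemma Fork.no_sink {A : Quiv V} {r : V} (h : Fork A r) (k : V) : ∃ l, 0 < A.b k l := by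
  by_cases hk : k = r
  · subst hk; exact h.hs
  · rcases h.ab k r hk with h1 | h1
    · exact ⟨r, by omega⟩
    · obtain ⟨i, hi⟩ := h.hp
      have := (h.big i k hi (by omega)).1
      exact ⟨i, by omega⟩

/-- no 3-cycle through `r` inside the successors or inside the predecessors of `k ≠ r` -/
lemma Fork.no_cyc_ss {A : Quiv V} {r k : V} (h : Fork A r) {y z : V} (hr : 0 < A.b r k)
    (hz : 0 < A.b z k) (_h1 : 0 < A.b r y) (_h2 : 0 < A.b y z) (h3 : 0 < A.b z r) : False := by
  have := (h.big z k h3 hr).1
  have s := A.skew z k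
  omega

lemma Fork.no_cyc_pp {A : Quiv V} {r k : V} (h : Fork A r) {y z : V} (hr : 0 < A.b k r)
    (hy : 0 < A.b k y) (h1 : 0 < A.b r y) (_h2 : 0 < A.b y z) (_h3 : 0 < A.b z r) : False := by
  have := (h.big k y hr h1).1
  have s := A.skew y k
  omega

lemma Fork.step {A : Quiv V} {r k : V} (h : Fork A r) (hk : k ≠ r) : Fork (A.mut k) k := by
  have key : ∀ a c, 0 < A.b a k → 0 < A.b k c →
      A.b a k < (A.mut k).b a c ∧ A.b k c < (A.mut k).b a c := fun a c ha hc => h.c1 hk ha hc
  have typ : ∀ x, x ≠ k → 2 ≤ A.b x k ∨ 2 ≤ A.b k x := fun x hx => h.ab x k hx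
  refine ⟨?_, ?_, ?_, ?_, ?_⟩
  · intro i j hij
    by_cases hi : i = k
    · subst hi
      rw [mut_left, mut_right]
      have s := A.skew i j
      rcases h.ab i j hij with h1 | h1
      · right; omega
      · left; omega
    by_cases hj : j = k
    · subst hj
      rw [mut_left, mut_right]
      have s := A.skew i j
      rcases h.ab i j hij with h1 | h1
      · right; omega
      · left; omega
    rcases typ i hi with h1 | h1 <;> rcases typ j hj with h2 | h2
    · rw [mut_ss A (by omega) (by omega), mut_ss A (by omega) (by omega)]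
      exact h.ab i j hij
    · left
      have := (key i j (by omega) (by omega)).1
      omega
    · right
      have := (key j i (by omega) (by omega)).1
      omega
    · rw [mut_pp A (by omega) (by omega), mut_pp A (by omega) (by omega)]
      exact h.ab i j hij
  · intro i j hi hj
    rw [mut_right] at hi
    rw [mut_left] at hj
    have s1 := A.skew i k
    have s2 := A.skew j k
    have := key j i (by omega) (by omega)
    rw [mut_right, mut_left]
    constructor <;> omega
  · intro x y z hxy hyz hzx
    by_contra hcon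
    simp only [not_or] at hcon
    obtain ⟨hx, hy, hz⟩ := hcon
    have bad : ∀ u w, 2 ≤ A.b k u → 2 ≤ A.b w k → ¬ 0 < (A.mut k).b u w := by
      intro u w hu hw h0
      have := (key w u (by omega) (by omega)).1
      have s := (A.mut k).skew u w
      omega
    rcases typ x hx with h1 | h1 <;> rcases typ y hy with h2 | h2 <;>
      rcases typ z hz with h3 | h3
    · rw [mut_ss A (by omega) (by omega)] at hxy hyz hzx
      rcases h.cyc x y z hxy hyz hzx with e | e | e
      · subst e; exact h.no_cyc_ss (by omega) (by omega : 0 < A.b z k) hxy hyz hzx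
      · subst e; exact h.no_cyc_ss (by omega) (by omega : 0 < A.b x k) hyz hzx hxy
      · subst e; exact h.no_cyc_ss (by omega) (by omega : 0 < A.b y k) hzx hxy hyz
    · exact bad z x h3 h1 hzx
    · exact bad y z h2 h3 hyz
    · exact bad z x h3 h1 hzx
    · exact bad x y h1 h2 hxy
    · exact bad x y h1 h2 hxy
    · exact bad y z h2 h3 hyz
    · rw [mut_pp A (by omega) (by omega)] at hxy hyz hzx
      rcases h.cyc x y z hxy hyz hzx with e | e | e
      · subst e; exact h.no_cyc_pp (by omega) (by omega : 0 < A.b k y) hxy hyz hzx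
      · subst e; exact h.no_cyc_pp (by omega) (by omega : 0 < A.b k z) hyz hzx hxy
      · subst e; exact h.no_cyc_pp (by omega) (by omega : 0 < A.b k x) hzx hxy hyz
  · obtain ⟨l, hl⟩ := h.no_sink k
    exact ⟨l, by rw [mut_right, ← A.skew]; exact hl⟩
  · obtain ⟨l, hl⟩ := h.no_source k
    exact ⟨l, by rw [mut_left, ← A.skew]; exact hl⟩

lemma Fork.cond {A : Quiv V} {r : V} (h : Fork A r) : Cond A := by
  intro m l t v h1 h2 h3 h4 h5 h6
  have h5' : 2 ≤ A.b t v := by
    have := A.skew t v
    rcases h.ab t v (ne_of_pos h5) with h | h <;> omega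
  have h2' : 2 ≤ A.b v l := by
    have := A.skew v l
    rcases h.ab v l (ne_of_pos h2) with h | h <;> omega
  rcases h.cyc l t v h4 h5 h2 with e | e | e
  · subst e
    have := (h.big v t h2 h4).2
    nlinarith
  · subst e
    have := (h.big l v h4 h5).1
    nlinarith
  · subst e
    exact h.big t m h5 h1

/-- The class of quivers obtained from the roots by going up through forks. -/
inductive InClass (Root : Quiv V → Prop) : Quiv V → Prop
  | root (A : Quiv V) : Root A → InClass Root A
  | fork (A : Quiv V) (r : V) : Fork A r → InClass Root (A.mut r) → InClass Root A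

lemma InClass.mut {Root : Quiv V → Prop}
    (hR : ∀ A k, Root A → Root (A.mut k) ∨ Fork (A.mut k) k) {A : Quiv V} (h : InClass Root A)
    (k : V) : InClass Root (A.mut k) := by
  cases h with
  | root _ h1 =>
    rcases hR A k h1 with h2 | h2
    · exact .root _ h2
    · exact .fork _ k h2 (by rw [mut_mut]; exact .root _ h1)
  | fork _ r h1 h2 =>
    by_cases hk : k = r
    · subst hk; exact h2
    · exact .fork _ k (h1.step hk) (by rw [mut_mut]; exact .fork _ r h1 h2)

lemma InClass.mutEq {Root : Quiv V → Prop}
    (hR : ∀ A k, Root A → Root (A.mut k) ∨ Fork (A.mut k) k) {A B : Quiv V}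
    (h : InClass Root A) (hB : MutEq A B) : InClass Root B := by
  induction hB with
  | refl => exact h
  | tail _ hs ih =>
    obtain ⟨k, rfl⟩ := hs
    exact ih.mut hR k

/-- The general criterion: no quiver of the class has a maximal green sequence. -/
theorem no_mgs_class [Nontrivial V] {Root : Quiv V → Prop}
    (hR : ∀ A k, Root A → Root (A.mut k) ∨ Fork (A.mut k) k)
    (hab : ∀ A, Root A → Abund A) (hc : ∀ A, Root A → Cond A)
    (hss : ∀ A, Root A → ∀ k, (∀ l, A.b l k ≤ 0) → ∀ v, v ≠ k → ∃ w, 0 < A.b v w)
    {A : Quiv V} (hA : InClass Root A) : ¬ HasMGS A := by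
  have hab' : ∀ A, InClass Root A → Abund A := by
    intro A h; cases h with
    | root _ h1 => exact hab A h1
    | fork _ r h1 _ => exact h1.ab
  have hc' : ∀ A, InClass Root A → Cond A := by
    intro A h; cases h with
    | root _ h1 => exact hc A h1
    | fork _ r h1 _ => exact h1.cond
  have hss' : ∀ A, InClass Root A → ∀ k, (∀ l, A.b l k ≤ 0) → ∀ v, v ≠ k → ∃ w, 0 < A.b v w := by
    intro A h; cases h with
    | root _ h1 => exact hss A h1
    | fork _ r h1 _ =>
      intro k hk
      obtain ⟨l, hl⟩ := h1.no_source k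
      have := hk l
      omega
  refine no_mgs (fun A C => InClass Root A ∧ Inv A C ∧
    ((∀ k, Green C k) ∨ ∃ v, ¬ Green C v ∧ ∀ l, 0 < A.b v l → Green C l) ∧ ∃ k, Green C k)
    (fun A C h => h.2.2.2) ?_ ⟨hA, inv_init A, Or.inl green_init, ?_⟩
  · rintro A C k ⟨h1, h2, h3, h4⟩ hk
    have hA := hab' A h1
    refine ⟨h1.mut hR k, step_inv hA (hc' A h1) h2 hk, Or.inr ⟨k, self_not_green h2 hk, ?_⟩, ?_⟩
    · intro l hl
      rw [mut_left, ← A.skew] at hl
      exact pred_green hA h2 hk hl
    · by_cases hs : ∃ l, 0 < A.b l k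
      · obtain ⟨l, hl⟩ := hs
        exact ⟨l, pred_green hA h2 hk hl⟩
      · have hs' : ∀ l, A.b l k ≤ 0 := by
          intro l; by_contra hcon; exact hs ⟨l, by omega⟩
        have keep : ∀ l, l ≠ k → Green C l → Green (cmut A C k) l := by
          intro l hl hg
          refine (green_congr fun i => cmut_p A C ?_ i).2 hg
          rcases hA l k hl with h | h
          · have := hs' l; omega
          · omega
        rcases h3 with h3 | ⟨v, hv, h3⟩
        · obtain ⟨l, hl⟩ := exists_ne k
          exact ⟨l, keep l hl (h3 l)⟩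
        · have hvk : v ≠ k := by rintro rfl; exact hv hk
          obtain ⟨w, hw⟩ := hss' A h1 k hs' v hvk
          have hwk : w ≠ k := by
            rintro rfl
            have := hs' v; omega
          exact ⟨w, keep w hwk (h3 w hw)⟩
  · obtain ⟨x, _⟩ := exists_pair_ne V
    exact ⟨x, green_init x⟩

end Pool.Agent.R990.MGS
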