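import Pool.Agent.R990.MGS.Fork

namespace Pool.Agent.R990.MGS

/-- Decidable form of `Fork`. -/
def ForkD {V : Type} (A : Quiv V) (r : V) : Prop :=
  (∀ i j, i ≠ j → 2 ≤ A.b i j ∨ 2 ≤ A.b j i) ∧
  (∀ i j, 0 < A.b i r → 0 < A.b r j → A.b i r < A.b j i ∧ A.b r j < A.b j i) ∧
  (∀ x y z, 0 < A.b x y → 0 < A.b y z → 0 < A.b z x → x = r ∨ y = r ∨ z = r) ∧
  (∃ i, 0 < A.b i r) ∧ ∃ j, 0 < A.b r j

instance {V : Type} [Fintype V] [DecidableEq V] (A : Quiv V) (r : V) : Decidable (ForkD A r) := by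
  unfold ForkD
  refine @instDecidableAnd _ _ ?_ (@instDecidableAnd _ _ ?_ (@instDecidableAnd _ _ ?_ ?_))
  · infer_instance
  · infer_instance
  · infer_instance
  · infer_instance

lemma ForkD.fork {V : Type} [DecidableEq V] {A : Quiv V} {r : V} (h : ForkD A r) : Fork A r :=
  ⟨h.1, h.2.1, h.2.2.1, h.2.2.2.1, h.2.2.2.2⟩

/-! ### Rank 3 -/

/-- The acyclic quivers of rank 3 with all weights 2 in the mutation class. -/
def A3 (i : Fin 3) : Quiv (Fin 3) where
  b := ![![![0, 2, 2], ![-2, 0, 2], ![-2, -2, 0]],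
    ![![0, -2, -2], ![2, 0, 2], ![2, -2, 0]],
    ![![0, 2, -2], ![-2, 0, -2], ![2, 2, 0]]] i
  skew := by revert i; decide

/-- The 3-cycle with weights `2, 2, 6`. -/
def Q3 : Quiv (Fin 3) where
  b := ![![0, -2, 6], ![2, 0, -2], ![-6, 2, 0]]
  skew := by decide

def Root3 (A : Quiv (Fin 3)) : Prop := ∃ i, A = A3 i

lemma root3_step_aux : ∀ i k : Fin 3, (∃ j, ∀ x y, ((A3 i).mut k).b x y = (A3 j).b x y) ∨
    ForkD ((A3 i).mut k) k := by decide

lemma root3_step (A : Quiv (Fin 3)) (k : Fin 3) (h : Root3 A) :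
    Root3 (A.mut k) ∨ Fork (A.mut k) k := by
  obtain ⟨i, rfl⟩ := h
  rcases root3_step_aux i k with ⟨j, hj⟩ | h
  · exact Or.inl ⟨j, by ext x y; exact hj x y⟩
  · exact Or.inr h.fork

lemma root3_ab_aux : ∀ i x y : Fin 3, x ≠ y → 2 ≤ (A3 i).b x y ∨ 2 ≤ (A3 i).b y x := by decide

lemma fin3_cases : ∀ s m t k : Fin 3, s ≠ m → m ≠ t → s ≠ t → k = s ∨ k = m ∨ k = t := by decide

lemma cond3 (A : Quiv (Fin 3)) : Cond A := by
  intro m l t v h1 h2 h3 h4 h5 _
  exfalso
  have s1 := A.skew v l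
  have s2 := A.skew t v
  have hvm := ne_of_pos h1
  have hml := ne_of_pos h3
  have hvl := ne_of_pos h2
  have hlt := ne_of_pos h4
  have htv := ne_of_pos h5
  rcases fin3_cases m l v t hml hvl.symm hvm.symm with e | e | e
  · subst e
    have := A.skew t l
    omega
  · exact hlt e.symm
  · exact htv e

lemma fin3_pair : ∀ k : Fin 3, ∃ a c : Fin 3, a ≠ k ∧ c ≠ k ∧ a ≠ c := by decide

/-- A cyclic quiver in the rank 3 class has no maximal green sequence. -/
lemma no_mgs3 {A : Quiv (Fin 3)} {r : Fin 3} (hA : InClass Root3 A) (hf : Fork A r) :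
    ¬ HasMGS A := by
  have hab' : ∀ A, InClass Root3 A → Abund A := by
    intro A h; cases h with
    | root _ h1 => obtain ⟨i, rfl⟩ := h1; exact root3_ab_aux i
    | fork _ r h1 _ => exact h1.ab
  refine no_mgs (fun A C => InClass Root3 A ∧ Inv A C ∧
    (∀ s m t, 0 < A.b s m → 0 < A.b m t → 0 < A.b s t →
      (¬ Green C m ∧ Green C t) ∨ (¬ Green C s ∧ Green C m)) ∧ ∃ k, Green C k)
    (fun A C h => h.2.2.2) ?_ ⟨hA, inv_init A, ?_, ⟨0, green_init 0⟩⟩
  · rintro A C k ⟨h1, h2, h3, h4⟩ hk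
    have hA := hab' A h1
    refine ⟨h1.mut root3_step k, step_inv hA (cond3 A) h2 hk, ?_, ?_⟩
    · intro s m t hsm hmt hst
      rcases fin3_cases s m t k (ne_of_pos hsm) (ne_of_pos hmt) (ne_of_pos hst) with e | e | e
      · subst e
        rw [mut_left, ← A.skew] at hsm
        exact Or.inr ⟨self_not_green h2 hk, pred_green hA h2 hk hsm⟩
      · subst e
        rw [mut_left, ← A.skew] at hmt
        exact Or.inl ⟨self_not_green h2 hk, pred_green hA h2 hk hmt⟩
      · subst e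
        rw [mut_right, ← A.skew] at hmt hst
        rw [mut_pp A hst hmt] at hsm
        rcases h3 k s m hst hsm hmt with h | h
        · refine Or.inr ⟨fun g => h.1 ?_, ?_⟩
          · exact (green_congr fun i => cmut_p A C hst i).1 g
          · exact (green_congr fun i => cmut_p A C hmt i).2 h.2
        · exact absurd hk h.1
    · by_cases hs : ∃ l, 0 < A.b l k
      · obtain ⟨l, hl⟩ := hs
        exact ⟨l, pred_green hA h2 hk hl⟩
      · have hs' : ∀ l, l ≠ k → 0 < A.b k l := by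
          intro l hl
          rcases hA l k hl with h | h
          · exact absurd ⟨l, by omega⟩ hs
          · omega
        have key : ∀ a c, 0 < A.b a c → a ≠ k → c ≠ k → ∃ x, Green (cmut A C k) x := by
          intro a c hac ha hc
          rcases h3 k a c (hs' a ha) hac (hs' c hc) with h | h
          · exact ⟨c, (green_congr fun i => cmut_p A C (hs' c hc) i).2 h.2⟩
          · exact absurd hk h.1
        obtain ⟨a, c, hak, hck, hac⟩ := fin3_pair k
        rcases hA a c hac with h | h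
        · exact key a c (by omega) hak hck
        · exact key c a (by omega) hck hak
  · intro s m t hsm hmt hst
    exfalso
    rcases fin3_cases s m t r (ne_of_pos hsm) (ne_of_pos hmt) (ne_of_pos hst) with e | e | e
    · subst e
      obtain ⟨l, hl⟩ := hf.no_source r
      have s1 := A.skew r m
      have s2 := A.skew r t
      rcases fin3_cases r m t l (ne_of_pos hsm) (ne_of_pos hmt) (ne_of_pos hst) with e | e | e
      · exact ne_of_pos hl e
      · subst e; omega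
      · subst e; omega
    · subst e
      have := (hf.big s t hsm hmt).1
      have s1 := A.skew s t
      omega
    · subst e
      obtain ⟨l, hl⟩ := hf.no_sink r
      have s1 := A.skew s r
      have s2 := A.skew m r
      rcases fin3_cases s m r l (ne_of_pos hsm) (ne_of_pos hmt) (ne_of_pos hst) with e | e | e
      · subst e; omega
      · subst e; omega
      · exact ne_of_pos hl e.symm

lemma q3_mut : Q3.mut 1 = A3 0 := by
  have : ∀ x y, (Q3.mut 1).b x y = (A3 0).b x y := by decide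
  ext x y; exact this x y

lemma inClass_q3 : InClass Root3 Q3 := by
  refine .fork _ 1 (ForkD.fork (by decide)) ?_
  rw [q3_mut]
  exact .root _ ⟨0, rfl⟩

lemma psi_q3_finite : (Psi Q3).Finite := by
  refine (Set.finite_range (fun i : Fin 3 => (⟦A3 i⟧ : Quotient (isoSetoid (Fin 3))))).subset ?_
  rintro x ⟨A, hA, hm, rfl⟩
  have h := inClass_q3.mutEq root3_step hA
  cases h with
  | root _ h1 => obtain ⟨i, rfl⟩ := h1; exact ⟨i, rfl⟩
  | fork _ r h1 h2 =>
    exact absurd hm (no_mgs3 (.fork _ r h1 h2) h1)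

lemma hasMGS_A3 : HasMGS (A3 0) := by
  refine ⟨[0, 1, 2], ?_⟩
  simp only [IsMGS, IsGreen]
  decide

lemma psi_q3_nonempty : (Psi Q3).Nonempty :=
  ⟨_, A3 0, Relation.ReflTransGen.single ⟨1, q3_mut.symm⟩, hasMGS_A3, rfl⟩

/-! ### Rank 1 -/

/-- The quiver with one vertex. -/
def Q1 : Quiv (Fin 1) where
  b _ _ := 0
  skew _ _ := rfl

lemma quiv1_eq (A B : Quiv (Fin 1)) : A = B := by
  ext i j
  have h1 : i = j := Subsingleton.elim _ _
  subst h1
  rw [b_self, b_self]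

lemma psi_q1_finite : (Psi Q1).Finite := by
  refine Set.Subsingleton.finite ?_
  rintro x ⟨A, _, _, rfl⟩ y ⟨B, _, _, rfl⟩
  rw [quiv1_eq A B]

lemma psi_q1_nonempty : (Psi Q1).Nonempty := by
  refine ⟨_, Q1, Relation.ReflTransGen.refl, ⟨[0], ?_⟩, rfl⟩
  simp only [IsMGS, IsGreen]
  decide

/-! ### Rank 4 -/

/-- Two arrows from each vertex of the 3-cycle to the other vertex. -/
def L : List (Fin 3 × Fin 1) := [(0, 0), (0, 0), (1, 0), (1, 0), (2, 0), (2, 0)]

def idx : Fin 3 ⊕ Fin 1 → Fin 4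
  | .inl i => i.castSucc
  | .inr _ => 3

/-- The six roots of the rank 4 class. -/
def R4 (i : Fin 6) : Quiv (Fin 3 ⊕ Fin 1) where
  b x y := (![![![0, -2, 6, 2], ![2, 0, -2, 2], ![-6, 2, 0, 2], ![-2, -2, -2, 0]],
    ![![0, 2, 2, 2], ![-2, 0, 2, -2], ![-2, -2, 0, 6], ![-2, 2, -6, 0]],
    ![![0, -2, -2, -2], ![2, 0, 2, -2], ![2, -2, 0, 6], ![2, 2, -6, 0]],
    ![![0, 2, -2, -6], ![-2, 0, -2, 2], ![2, 2, 0, 2], ![6, -2, -2, 0]],
    ![![0, 2, 2, -6], ![-2, 0, 2, 2], ![-2, -2, 0, -2], ![6, -2, 2, 0]],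
    ![![0, -2, 6, -2], ![2, 0, -2, -2], ![-6, 2, 0, -2], ![2, 2, 2, 0]]] :
      Fin 6 → Fin 4 → Fin 4 → ℤ) i (idx x) (idx y)
  skew := by revert i; decide

def Root4 (A : Quiv (Fin 3 ⊕ Fin 1)) : Prop := ∃ i, A = R4 i

lemma root4_step_aux : ∀ (i : Fin 6) (k : Fin 3 ⊕ Fin 1),
    (∃ j, ∀ x y, ((R4 i).mut k).b x y = (R4 j).b x y) ∨ ForkD ((R4 i).mut k) k := by
  decide +kernel

lemma root4_step (A : Quiv (Fin 3 ⊕ Fin 1)) (k : Fin 3 ⊕ Fin 1) (h : Root4 A) :
    Root4 (A.mut k) ∨ Fork (A.mut k) k := by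
  obtain ⟨i, rfl⟩ := h
  rcases root4_step_aux i k with ⟨j, hj⟩ | h
  · exact Or.inl ⟨j, by ext x y; exact hj x y⟩
  · exact Or.inr h.fork

lemma root4_ab : ∀ A, Root4 A → Abund A := by
  rintro _ ⟨i, rfl⟩
  revert i
  unfold Abund
  decide +kernel

lemma root4_cond : ∀ A, Root4 A → Cond A := by
  rintro _ ⟨i, rfl⟩
  revert i
  unfold Cond
  decide +kernel

lemma root4_ss : ∀ A, Root4 A → ∀ k, (∀ l, A.b l k ≤ 0) → ∀ v, v ≠ k → ∃ w, 0 < A.b v w := by
  rintro _ ⟨i, rfl⟩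
  revert i
  decide +kernel

lemma dsum_eq : dsum Q3 Q1 L = R4 0 := by
  have : ∀ x y, (dsum Q3 Q1 L).b x y = (R4 0).b x y := by decide +kernel
  ext x y; exact this x y

instance : Nontrivial (Fin 3 ⊕ Fin 1) := ⟨.inl 0, .inr 0, by simp⟩

lemma psi_dsum : Psi (dsum Q3 Q1 L) = ∅ := by
  rw [Set.eq_empty_iff_forall_notMem]
  rintro x ⟨A, hA, hm, rfl⟩
  rw [dsum_eq] at hA
  have h : InClass Root4 A := InClass.mutEq root4_step (.root _ ⟨0, rfl⟩) hA
  exact no_mgs_class root4_step root4_ab root4_cond root4_ss h hm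

theorem main : ∃ (Q : Quiv (Fin 3)) (Q' : Quiv (Fin 1)) (L : List (Fin 3 × Fin 1)),
    (Psi Q).Finite ∧ (Psi Q).Nonempty ∧ (Psi Q').Finite ∧ (Psi Q').Nonempty ∧
      Psi (dsum Q Q' L) = ∅ :=
  ⟨Q3, Q1, L, psi_q3_finite, psi_q3_nonempty, psi_q1_finite, psi_q1_nonempty, psi_dsum⟩

end Pool.Agent.R990.MGS
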